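import Pool.Agent.Helper1.RK.StF

/-!
# Project RK, part F: the module ADF (addition formula)
-/

set_option autoImplicit false

namespace Pool.Agent.Helper84.RK

open Pool.Agent.Helper1.RK

theorem core_ADF {K : Type} [Field K] (D : K →+ K) (hmul : ∀ a b, D (a * b) = a * D b + b * D a)
    (x J k w : K) (hx : D x = 1) (hJ : D J = 0) (hk : k ≠ 0) (hw : w - x ≠ 0) (hv : D w ≠ 0)
    (hR : D w ^ 2 * (x ^ 3 + J * x + J) = k ^ 2 * (w ^ 3 + J * w + J)) (W : K)
    (hW : W = (x ^ 3 + J * x + J) * ((D w / k - 1) / (w - x)) ^ 2 - w - x) :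
    D W ^ 2 * (x ^ 3 + J * x + J) = (k + 1) ^ 2 * (W ^ 3 + J * W + J) := by
  have h_one : D 1 = 0 := by
    have h3 := hmul 1 1
    rw [mul_one, one_mul] at h3
    exact left_eq_add.1 h3
  have h_sq : ∀ a, D (a ^ 2) = 2 * a * D a := by
    intro a
    rw [pow_two, hmul]
    ring
  have h_cu : ∀ a, D (a ^ 3) = 3 * a ^ 2 * D a := by
    intro a
    rw [pow_succ, hmul, h_sq]
    ring
  obtain ⟨u, hu⟩ : ∃ u, u = D w / k := ⟨_, rfl⟩
  obtain ⟨l, hl⟩ : ∃ l, l = (u - 1) / (w - x) := ⟨_, rfl⟩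
  rw [← hu, ← hl] at hW
  have hvu : D w = k * u := by
    rw [hu]
    field_simp
  have hlh : l * (w - x) = u - 1 := by
    rw [hl]
    field_simp
  have hu0 : u ≠ 0 := by
    intro h0
    rw [h0, mul_zero] at hvu
    exact hv hvu
  -- the curve relation
  have hR1 : u ^ 2 * (x ^ 3 + J * x + J) = w ^ 3 + J * w + J := by
    rw [hvu] at hR
    have h2 : k ^ 2 ≠ 0 := pow_ne_zero 2 hk
    apply mul_left_cancel₀ h2
    linear_combination hR
  -- derivative of the relation
  have hDf : D (x ^ 3 + J * x + J) = 3 * x ^ 2 + J := by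
    rw [map_add, map_add, h_cu, hmul, hx, hJ]
    ring
  have hDg : D (w ^ 3 + J * w + J) = (3 * w ^ 2 + J) * D w := by
    rw [map_add, map_add, h_cu, hmul, hJ]
    ring
  have hR2 : 2 * D u * (x ^ 3 + J * x + J) + u * (3 * x ^ 2 + J) = k * (3 * w ^ 2 + J) := by
    have h3 := congrArg D hR1
    rw [hmul, h_sq, hDf, hDg, hvu] at h3
    apply mul_left_cancel₀ hu0
    linear_combination h3
  have hDl : D l * (w - x) + l * (k * u - 1) = D u := by
    have h3 := congrArg D hlh
    rw [hmul, map_sub, map_sub, hx, hvu, h_one] at h3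
    linear_combination h3
  -- the relation divided by `w - x`
  have hR3 : (x ^ 3 + J * x + J) * l * (2 + l * (w - x)) =
      (w - x) ^ 2 + 3 * x * (w - x) + (3 * x ^ 2 + J) := by
    apply mul_left_cancel₀ hw
    have h3 : u = 1 + l * (w - x) := by rw [hlh]; ring
    rw [h3] at hR1
    linear_combination hR1
  have hDW : D W = (3 * x ^ 2 + J) * l ^ 2 + 2 * (x ^ 3 + J * x + J) * l * D l - k * u - 1 := by
    rw [hW, map_sub, map_sub, hmul, h_sq, hDf, hx, hvu]
    ring
  have hDW2 : D W = -(k + 1) * (l * (W - x) + 1) := by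
    apply mul_left_cancel₀ hw
    have h3 : u = 1 + l * (w - x) := by rw [hlh]; ring
    rw [hDW, hW]
    linear_combination (2 * (x ^ 3 + J * x + J) * l) * hDl + l * hR2
      + (-(l * (3 * x ^ 2 + J)) - 2 * (x ^ 3 + J * x + J) * l ^ 2 * k - k * (w - x)) * h3
      - ((k - 1) * l) * hR3
  have hWc : W ^ 3 + J * W + J = (x ^ 3 + J * x + J) * (l * (W - x) + 1) ^ 2 := by
    have h4 : W ^ 3 + J * W + J - (x ^ 3 + J * x + J) * (l * (W - x) + 1) ^ 2
        = (W - x) * ((W - w) * (W - W)) := by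
      have h5 : (x ^ 3 + J * x + J) * l ^ 2 = W + w + x := by
        rw [hW]
        ring
      have h6 : W ^ 3 + J * W + J - (x ^ 3 + J * x + J) * (l * (W - x) + 1) ^ 2
          = W ^ 3 + J * W + J - (x ^ 3 + J * x + J)
            - 2 * ((x ^ 3 + J * x + J) * l) * (W - x)
            - ((x ^ 3 + J * x + J) * l ^ 2) * (W - x) ^ 2 := by
        ring
      have h7 : 2 * ((x ^ 3 + J * x + J) * l) =
          (w - x) ^ 2 + 3 * x * (w - x) + (3 * x ^ 2 + J) - (W + w + x) * (w - x) := by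
        linear_combination hR3 - (w - x) * h5
      rw [h6, h5, h7]
      ring
    rw [sub_self, mul_zero, mul_zero] at h4
    linear_combination h4
  rw [hDW2, hWc]
  ring

theorem pADF (_h1 : StDER) : StADF := by
  intro L _ _ Dt j κ w W hO hκ hwx hv hR hW
  obtain ⟨hC, hX⟩ := hO
  have hJ : Dt (RatFunc.C j) = 0 := by
    rw [hC j]
    simp
  have hk : (RatFunc.C κ : RatFunc L) ≠ 0 := by
    intro h0
    apply hκ
    apply RatFunc.C_injective
    rw [h0, map_zero]
  have e1 : (RatFunc.C (κ ^ 2) : RatFunc L) = RatFunc.C κ ^ 2 := map_pow _ _ _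
  have e2 : (RatFunc.C ((κ + 1) ^ 2) : RatFunc L) = (RatFunc.C κ + 1) ^ 2 := by
    rw [map_pow, map_add, map_one]
  rw [e1] at hR
  rw [e2]
  have hm : ∀ a b, Dt.toLinearMap.toAddMonoidHom (a * b) =
      a * Dt.toLinearMap.toAddMonoidHom b + b * Dt.toLinearMap.toAddMonoidHom a := by
    intro a b
    exact Dt.leibniz a b
  exact core_ADF Dt.toLinearMap.toAddMonoidHom hm RatFunc.X (RatFunc.C j) (RatFunc.C κ) w hX hJ hk
    (sub_ne_zero.2 hwx) hv hR W hW

end Pool.Agent.Helper84.RK
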